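import Pool.Agent.Helper584_CU.Real

/-! Squares between two Lipschitz graphs that form a cusp: the core estimate. -/

set_option autoImplicit false
open Set

namespace Pool.Agent.Helper584_CU

variable {f g : ℝ → ℝ}

theorem abs3 {a b : ℝ} (h : |a| ≤ b) : -b ≤ a ∧ a ≤ b := abs_le.1 h

theorem exX (hf : Lip f) (hg : Lip g) (f0 : f 0 = 0) (g0 : g 0 = 0) {a : ℝ} (ha : 0 < a)
    (hfg : f a < g a) :
    ∃ X, 0 < X ∧ X < a ∧ f a + X = g (a - (f a - f (a - X))) := by
  set H : ℝ → ℝ := fun X => f a + X - g (a - (f a - f (a - X))) with hH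
  have hc : Continuous H := by
    have h1 := hf.cont
    have h2 := hg.cont
    simp only [hH]
    fun_prop
  have h0 : H 0 < 0 := by
    simp only [hH]
    simp only [sub_zero, sub_self, add_zero]
    linarith
  have h1 : 0 < H a := by
    simp only [hH, sub_self, f0, sub_zero]
    have e1 := abs3 (hf a 0)
    have e2 := abs3 (hg (a - f a) 0)
    rw [f0, sub_zero, sub_zero, abs_of_pos ha] at e1
    rw [g0, sub_zero, sub_zero, abs_of_pos (by linarith)] at e2
    linarith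
  obtain ⟨X, ⟨hX0, hXa⟩, hX⟩ := intermediate_value_Icc ha.le hc.continuousOn
    (show (0:ℝ) ∈ Icc (H 0) (H a) from ⟨h0.le, h1.le⟩)
  refine ⟨X, lt_of_le_of_ne hX0 ?_, lt_of_le_of_ne hXa ?_, ?_⟩
  · rintro rfl
    linarith
  · rintro rfl
    linarith
  · simp only [hH] at hX
    linarith

/-- the square triple over `a` -/
structure Tr (f g : ℝ → ℝ) (a X Y : ℝ) : Prop where
  a0 : 0 < a
  X0 : 0 < X
  Xa : X < a
  eY : Y = f a - f (a - X)
  eX : f a + X = g (a - Y)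

theorem Tr.Yb (hf : Lip f) {a X Y : ℝ} (T : Tr f g a X Y) : |Y| ≤ 2 / 5 * X := by
  have := hf a (a - X)
  rw [← T.eY] at this
  rwa [show a - (a - X) = X by ring, abs_of_pos T.X0] at this

theorem Tr.XYb (hf : Lip f) (hg : Lip g) (f0 : f 0 = 0) (g0 : g 0 = 0) {a X Y : ℝ}
    (T : Tr f g a X Y) : X + Y ≤ 4 / 7 * a := by
  have h1 := abs3 (T.Yb hf)
  have h2 := T.X0
  have h3 := T.Xa
  have e1 := abs3 (hf (a - X) 0)
  have e2 := abs3 (hg (a - Y) 0)
  rw [f0, sub_zero, sub_zero, abs_of_pos (by linarith)] at e1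
  rw [g0, sub_zero, sub_zero, abs_of_pos (by linarith)] at e2
  have := T.eX
  have := T.eY
  linarith

/-- the triple depends on `a` in a Lipschitz way -/
theorem Tr.lip (hf : Lip f) (hg : Lip g) {a X Y a' X' Y' : ℝ}
    (T : Tr f g a X Y) (T' : Tr f g a' X' Y') (h : a ≤ a') :
    |X' - X| ≤ 4 / 3 * (a' - a) ∧ |Y' - Y| ≤ 4 / 3 * (a' - a) := by
  have hd : |a' - a| = a' - a := abs_of_nonneg (by linarith)
  have e1 := abs3 (hf a' a)
  have e2 := hf (a' - X') (a - X)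
  have e3 := hg (a' - Y') (a - Y)
  rw [hd] at e1
  have t2 : |a' - X' - (a - X)| ≤ (a' - a) + |X' - X| := by
    rw [show a' - X' - (a - X) = (a' - a) - (X' - X) by ring]
    exact (abs_sub _ _).trans (by rw [hd])
  have t3 : |a' - Y' - (a - Y)| ≤ (a' - a) + |Y' - Y| := by
    rw [show a' - Y' - (a - Y) = (a' - a) - (Y' - Y) by ring]
    exact (abs_sub _ _).trans (by rw [hd])
  have e2' := abs3 (e2.trans (by linarith : _ ≤ 2 / 5 * ((a' - a) + |X' - X|)))
  have e3' := abs3 (e3.trans (by linarith : _ ≤ 2 / 5 * ((a' - a) + |Y' - Y|)))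
  have dY : |Y' - Y| ≤ 4 / 5 * (a' - a) + 2 / 5 * |X' - X| := by
    rw [abs_le, T.eY, T'.eY]
    constructor <;> linarith
  have dX : |X' - X| ≤ 4 / 5 * (a' - a) + 2 / 5 * |Y' - Y| := by
    have h1 := T.eX
    have h2 := T'.eX
    rw [abs_le]
    constructor <;> linarith
  constructor <;> linarith

/-- the fourth vertex moves to the right -/
theorem Tr.mono (hf : Lip f) (hg : Lip g) {a X Y a' X' Y' : ℝ}
    (T : Tr f g a X Y) (T' : Tr f g a' X' Y') (h : a ≤ a') :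
    a - X - Y ≤ a' - X' - Y' := by
  have hd : |a' - a| = a' - a := abs_of_nonneg (by linarith)
  have e1 := abs3 (hf a' a)
  have e2 := hf (a' - X') (a - X)
  have e3 := hg (a' - Y') (a - Y)
  rw [hd] at e1
  have k1 := T.eX
  have k2 := T'.eX
  have k3 := T.eY
  have k4 := T'.eY
  rcases le_total 0 (a' - X' - (a - X)) with c1 | c1 <;>
    rcases le_total 0 (a' - Y' - (a - Y)) with c2 | c2
  · rw [abs_of_nonneg c1] at e2
    rw [abs_of_nonneg c2] at e3
    have e2' := abs3 e2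
    have e3' := abs3 e3
    linarith
  · rw [abs_of_nonneg c1] at e2
    rw [abs_of_nonpos c2] at e3
    have e2' := abs3 e2
    have e3' := abs3 e3
    linarith
  · rw [abs_of_nonpos c1] at e2
    rw [abs_of_nonneg c2] at e3
    have e2' := abs3 e2
    have e3' := abs3 e3
    linarith
  · rw [abs_of_nonpos c1] at e2
    rw [abs_of_nonpos c2] at e3
    have e2' := abs3 e2
    have e3' := abs3 e3
    linarith

/-- the height of the fourth vertex above the graph of `g` -/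
noncomputable def ht (f g : ℝ → ℝ) (a X Y : ℝ) : ℝ := f (a - X) + X - g (a - X - Y)

theorem ht_lip (hf : Lip f) (hg : Lip g) {a X Y a' X' Y' : ℝ}
    (T : Tr f g a X Y) (T' : Tr f g a' X' Y') (h : a ≤ a') :
    |ht f g a' X' Y' - ht f g a X Y| ≤ 5 * (a' - a) := by
  obtain ⟨h1, h2⟩ := T.lip hf hg T' h
  have h1' := abs3 h1
  have h2' := abs3 h2
  have e1 := hf (a' - X') (a - X)
  have e2 := hg (a' - X' - Y') (a - X - Y)
  have t1 : |a' - X' - (a - X)| ≤ 4 * (a' - a) := by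
    rw [abs_le]
    constructor <;> linarith
  have t2 : |a' - X' - Y' - (a - X - Y)| ≤ 4 * (a' - a) := by
    rw [abs_le]
    constructor <;> linarith
  have e1' := abs3 (e1.trans (by linarith : _ ≤ 2 / 5 * (4 * (a' - a))))
  have e2' := abs3 (e2.trans (by linarith : _ ≤ 2 / 5 * (4 * (a' - a))))
  unfold ht
  rw [abs_le]
  constructor <;> linarith

theorem sqb {x d : ℝ} (h1 : -(4 * d) ≤ x) (h2 : x ≤ 4 * d) : x ^ 2 ≤ 16 * d ^ 2 := by
  nlinarith [mul_nonneg (sub_nonneg.2 h1) (sub_nonneg.2 h2)]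

/-- the area function -/
noncomputable def Ps (F G : ℝ → ℝ) (a X Y : ℝ) : ℝ :=
  F a - F (a - X) - G (a - Y) + G (a - X - Y) + (X ^ 2 - Y ^ 2) / 2

theorem Ps_neg {F G : ℝ → ℝ}
    (hF : ∀ x y, |F y - F x - f x * (y - x)| ≤ (y - x) ^ 2 / 5)
    (hG : ∀ x y, |G y - G x - g x * (y - x)| ≤ (y - x) ^ 2 / 5) {a X Y : ℝ}
    (T : Tr f g a X Y) : Ps F G a X Y ≤ -(X ^ 2 / 10) := by
  have e1 := abs3 (hF a (a - X))
  have e2 := abs3 (hG (a - Y) (a - X - Y))
  rw [show a - X - a = -X by ring] at e1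
  rw [show a - X - Y - (a - Y) = -X by ring, ← T.eX] at e2
  unfold Ps
  nlinarith [sq_nonneg Y]

theorem Ps_step (hf : Lip f) (hg : Lip g) {F G : ℝ → ℝ}
    (hF : ∀ x y, |F y - F x - f x * (y - x)| ≤ (y - x) ^ 2 / 5)
    (hG : ∀ x y, |G y - G x - g x * (y - x)| ≤ (y - x) ^ 2 / 5) {a X Y a' X' Y' : ℝ}
    (T : Tr f g a X Y) (T' : Tr f g a' X' Y') (h : a ≤ a') (hh : ht f g a X Y ≤ 0) :
    Ps F G a X Y - 20 * (a' - a) ^ 2 ≤ Ps F G a' X' Y' := by
  obtain ⟨h1, h2⟩ := T.lip hf hg T' h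
  have h3 := T.mono hf hg T' h
  have h1' := abs3 h1
  have h2' := abs3 h2
  have k1 := abs3 (hF a a')
  have k2 := abs3 (hF (a - X) (a' - X'))
  have k3 := abs3 (hG (a - Y) (a' - Y'))
  have k4 := abs3 (hG (a - X - Y) (a' - X' - Y'))
  set d := a' - a with hd
  have hd0 : 0 ≤ d := by rw [hd]; linarith
  set p := X' - X with hp
  set q := Y' - Y with hq
  have e2 : a' - X' - (a - X) = d - p := by rw [hd, hp]; ring
  have e3 : a' - Y' - (a - Y) = d - q := by rw [hd, hq]; ring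
  have e4 : a' - X' - Y' - (a - X - Y) = d - p - q := by rw [hd, hp, hq]; ring
  rw [e2] at k2
  rw [e3, ← T.eX] at k3
  rw [e4] at k4
  have ef : f (a - X) = f a - Y := by rw [T.eY]; ring
  rw [ef] at k2
  have hg4 : g (a - X - Y) = f a - Y + X - ht f g a X Y := by
    unfold ht; rw [ef]; ring
  rw [hg4] at k4
  have b1 : (d - p) ^ 2 ≤ 16 * d ^ 2 := sqb (by linarith) (by linarith)
  have b2 : (d - q) ^ 2 ≤ 16 * d ^ 2 := sqb (by linarith) (by linarith)
  have b3 : (d - p - q) ^ 2 ≤ 16 * d ^ 2 := sqb (by linarith) (by linarith)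
  have b4 : q ^ 2 ≤ 16 * d ^ 2 := sqb (by linarith) (by linarith)
  have b5 : 0 ≤ -ht f g a X Y * (d - p - q) := mul_nonneg (by linarith) (by linarith)
  have s1 : X' ^ 2 = X ^ 2 + 2 * X * p + p ^ 2 := by rw [hp]; ring
  have s2 : Y' ^ 2 = Y ^ 2 + 2 * Y * q + q ^ 2 := by rw [hq]; ring
  have k1' := k1.1
  have k2' := k2.2
  have k3' := k3.2
  have k4' := k4.1
  unfold Ps
  rw [s1, s2]
  linarith [sq_nonneg p]

theorem Ps_lo {F G : ℝ → ℝ} (hf : Lip f)
    (hF : ∀ x y, |F y - F x - f x * (y - x)| ≤ (y - x) ^ 2 / 5)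
    (hG : ∀ x y, |G y - G x - g x * (y - x)| ≤ (y - x) ^ 2 / 5) {a X Y : ℝ}
    (T : Tr f g a X Y) : -(2 * a ^ 2) ≤ Ps F G a X Y := by
  have e1 := abs3 (hF a (a - X))
  have e2 := abs3 (hG (a - Y) (a - X - Y))
  rw [show a - X - a = -X by ring] at e1
  rw [show a - X - Y - (a - Y) = -X by ring, ← T.eX] at e2
  have e3 := abs3 (T.Yb hf)
  have h1 := T.X0
  have h2 := T.Xa
  have e4 : Y ^ 2 ≤ X ^ 2 := by nlinarith
  have e5 : X ^ 2 ≤ a ^ 2 := by nlinarith
  unfold Ps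
  nlinarith

theorem Tr.uniq (hf : Lip f) (hg : Lip g) {a X Y X' Y' : ℝ}
    (T : Tr f g a X Y) (T' : Tr f g a X' Y') : X' = X ∧ Y' = Y := by
  obtain ⟨h1, h2⟩ := T.lip hf hg T' le_rfl
  rw [sub_self, mul_zero] at h1 h2
  have h1' := abs_nonpos_iff.1 h1
  have h2' := abs_nonpos_iff.1 h2
  constructor <;> linarith

/-- without squares the fourth vertex is above the graph of `g` -/
theorem ht_pos (hf : Lip f) (hg : Lip g) (f0 : f 0 = 0) (g0 : g 0 = 0) {R : ℝ}
    (hfg : ∀ a ∈ Ioc 0 R, f a < g a)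
    (hno : ∀ a ∈ Ioc 0 R, ∀ X Y, Tr f g a X Y → ht f g a X Y ≠ 0) {a X Y : ℝ} (ha : a ∈ Ioc 0 R)
    (T : Tr f g a X Y) : 0 < ht f g a X Y := by
  obtain ⟨F, hF⟩ := exF hf
  obtain ⟨G, hG⟩ := exF hg
  have ex : ∀ a, ∃ X Y, a ∈ Ioc 0 R → Tr f g a X Y := fun a => by
    by_cases ha : a ∈ Ioc 0 R
    · obtain ⟨X, h1, h2, h3⟩ := exX hf hg f0 g0 ha.1 (hfg a ha)
      exact ⟨X, _, fun _ => ⟨ha.1, h1, h2, rfl, h3⟩⟩
    · exact ⟨0, 0, fun h => absurd h ha⟩
  choose X1 Y1 hT using ex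
  by_contra hcon
  have hlt : ht f g a X Y < 0 := lt_of_le_of_ne (not_lt.1 hcon) (hno a ha X Y T)
  obtain ⟨eX, eY⟩ := (hT a ha).uniq hf hg T
  rw [eX, eY] at hlt
  have hcont : ContinuousOn (fun a => ht f g a (X1 a) (Y1 a)) (Ioc 0 R) := by
    refine Metric.continuousOn_iff.2 fun b hb ε hε => ⟨ε / 5, by positivity, fun d hd hbd => ?_⟩
    rw [Real.dist_eq] at hbd ⊢
    rcases le_total b d with h | h
    · have := ht_lip hf hg (hT b hb) (hT d hd) h
      rw [abs_of_nonneg (by linarith)] at hbd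
      linarith
    · have := ht_lip hf hg (hT d hd) (hT b hb) h
      rw [abs_sub_comm] at this
      rw [abs_of_nonpos (by linarith)] at hbd
      linarith
  have hneg : ∀ b ∈ Ioc 0 R, ht f g b (X1 b) (Y1 b) < 0 := by
    intro b hb
    by_contra hc
    push Not at hc
    obtain ⟨d, hd, hd0⟩ := isPreconnected_Ioc.intermediate_value ha hb hcont
      (show (0:ℝ) ∈ Icc _ _ from ⟨hlt.le, hc⟩)
    exact hno d hd _ _ (hT d hd) hd0
  have hTa := hT a ha
  have hXa := hTa.X0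
  have hPa := Ps_neg hF hG hTa
  obtain ⟨e, he, he1, he2⟩ : ∃ e > 0, e ≤ a ∧ 2 * e ^ 2 < X1 a ^ 2 / 10 := by
    refine ⟨min a (X1 a / 5), lt_min ha.1 (by positivity), min_le_left _ _, ?_⟩
    have h1 : min a (X1 a / 5) ≤ X1 a / 5 := min_le_right _ _
    have h2 : 0 < min a (X1 a / 5) := lt_min ha.1 (by positivity)
    have h3 : (min a (X1 a / 5)) ^ 2 ≤ (X1 a / 5) ^ 2 := pow_le_pow_left₀ h2.le h1 2
    nlinarith
  have he' : e ∈ Ioc 0 R := ⟨he, he1.trans ha.2⟩
  have h1 := mono_of_sq (P := fun a => Ps F G a (X1 a) (Y1 a)) (C := 20) he1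
    (fun x y hx hxy hy => Ps_step hf hg hF hG (hT x ⟨he.trans_le hx, (hxy.trans hy).trans ha.2⟩)
      (hT y ⟨he.trans_le (hx.trans hxy), hy.trans ha.2⟩) hxy
      (hneg x ⟨he.trans_le hx, (hxy.trans hy).trans ha.2⟩).le)
  have h2 := Ps_lo hf hF hG (hT e he')
  linarith

/-- the core estimate: for a chord from the graph of `f` to the graph of `g` one of the two further
vertices of the square on its left lies outside the cusp -/
theorem core (hf : Lip f) (hg : Lip g) (f0 : f 0 = 0) (g0 : g 0 = 0) {R : ℝ}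
    (hfg : ∀ a ∈ Ioc 0 R, f a < g a)
    (hno : ∀ a ∈ Ioc 0 R, ∀ X Y, Tr f g a X Y → ht f g a X Y ≠ 0) {a : ℝ} (ha : a ∈ Ioc 0 R)
    (b : ℝ) : f a - (a - b) < f (a - (g b - f a)) ∨ g (b - (g b - f a)) < g b - (a - b) := by
  by_contra hcon
  push Not at hcon
  obtain ⟨h1, h2⟩ := hcon
  obtain ⟨X, hX0, hXa, hX⟩ := exX hf hg f0 g0 ha.1 (hfg a ha)
  have T : Tr f g a X (f a - f (a - X)) := ⟨ha.1, hX0, hXa, rfl, hX⟩
  have hp := ht_pos hf hg f0 g0 hfg hno ha T
  unfold ht at hp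
  obtain ⟨q, hq⟩ : ∃ q, q = g b - f a := ⟨_, rfl⟩
  rw [← hq] at h1 h2
  obtain ⟨δ, hδ⟩ : ∃ δ, δ = f a - f (a - q) - (a - b) := ⟨_, rfl⟩
  have hδ0 : 0 ≤ δ := by linarith
  set Y := f a - f (a - X) with hY
  obtain ⟨F, hF⟩ : ∃ F, F = f (a - X) - f (a - q) := ⟨_, rfl⟩
  have k1 := hf (a - X) (a - q)
  rw [show a - X - (a - q) = q - X by ring, ← hF] at k1
  have k2 := hg (a - Y) b
  have t2 : a - Y - b = F - δ := by linarith
  rw [t2] at k2
  have k4 := hg (a - X - Y) (b - q)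
  have t4 : a - X - Y - (b - q) = q - X + F - δ := by linarith
  rw [t4] at k4
  rcases le_total 0 (q - X) with c1 | c1 <;> rcases le_total 0 (F - δ) with c2 | c2 <;>
    rcases le_total 0 (q - X + F - δ) with c3 | c3
  · rw [abs_of_nonneg c1] at k1
    rw [abs_of_nonneg c2] at k2
    rw [abs_of_nonneg c3] at k4
    have := abs3 k1
    have := abs3 k2
    have := abs3 k4
    linarith
  · rw [abs_of_nonneg c1] at k1
    rw [abs_of_nonneg c2] at k2
    rw [abs_of_nonpos c3] at k4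
    have := abs3 k1
    have := abs3 k2
    have := abs3 k4
    linarith
  · rw [abs_of_nonneg c1] at k1
    rw [abs_of_nonpos c2] at k2
    rw [abs_of_nonneg c3] at k4
    have := abs3 k1
    have := abs3 k2
    have := abs3 k4
    linarith
  · rw [abs_of_nonneg c1] at k1
    rw [abs_of_nonpos c2] at k2
    rw [abs_of_nonpos c3] at k4
    have := abs3 k1
    have := abs3 k2
    have := abs3 k4
    linarith
  · rw [abs_of_nonpos c1] at k1
    rw [abs_of_nonneg c2] at k2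
    rw [abs_of_nonneg c3] at k4
    have := abs3 k1
    have := abs3 k2
    have := abs3 k4
    linarith
  · rw [abs_of_nonpos c1] at k1
    rw [abs_of_nonneg c2] at k2
    rw [abs_of_nonpos c3] at k4
    have := abs3 k1
    have := abs3 k2
    have := abs3 k4
    linarith
  · rw [abs_of_nonpos c1] at k1
    rw [abs_of_nonpos c2] at k2
    rw [abs_of_nonneg c3] at k4
    have := abs3 k1
    have := abs3 k2
    have := abs3 k4
    linarith
  · rw [abs_of_nonpos c1] at k1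
    rw [abs_of_nonpos c2] at k2
    rw [abs_of_nonpos c3] at k4
    have := abs3 k1
    have := abs3 k2
    have := abs3 k4
    linarith

end Pool.Agent.Helper584_CU
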