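import Pool.Agent.Helper584_CU.Germ

/-! The number of half turns of the angle function does not change at a cusp. -/

set_option autoImplicit false
open Complex Set Topology Metric

namespace Pool.Agent.Helper584_CU

open Pool.Agent.H763R2 Pool.Agent.H763R2.An Pool.Agent.W675.Peg Pool.Agent.TH569.Peg
open Pool.Agent.Y535.PEG
open Pool.Agent.H763R2.Dm (NoSq)

/-- the curve has a cusp at the parameter `s` -/
def Csp (c : ℝ → ℂ) (s : ℝ) : Prop := ∃ ρ > 0, ∃ w : ℂ,
  (∀ x y : ℝ, s ≤ x → x < y → y < s + ρ → 5 * |(w * (c y - c x)).im| < 2 * (w * (c y - c x)).re) ∧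
  (∀ x y : ℝ, s - ρ < x → x < y → y ≤ s → 5 * |(w * (c x - c y)).im| < 2 * (w * (c x - c y)).re)

/-- a function whose values avoid a closed quadrant stays in one turn -/
theorem quad_floor {X : Type*} [TopologicalSpace X] {V : Set X} (hV : IsPreconnected V)
    {f : X → ℝ} (hf : ContinuousOn f V) {τ : ℝ} (hτ : τ = 1 ∨ τ = -1)
    (h : ∀ v ∈ V, 0 < τ * Real.cos (f v) ∨ 0 < τ * Real.sin (f v)) {z w : X} (hz : z ∈ V)
    (hw : w ∈ V) (qz : 0 < Real.cos (f z) * Real.sin (f z))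
    (qw : 0 < Real.cos (f w) * Real.sin (f w)) : ⌊f z / Real.pi⌋ = ⌊f w / Real.pi⌋ := by
  have hπ := Real.pi_pos
  have hτ2 : τ * τ = 1 := by rcases hτ with h | h <;> rw [h] <;> norm_num
  have hs : ∀ v ∈ V, 0 < Real.cos (f v) * Real.sin (f v) → 0 < τ * Real.sin (f v) := by
    intro v hv hq
    rcases h v hv with h1 | h1
    · have e : τ * Real.sin (f v) * (τ * Real.cos (f v)) = Real.cos (f v) * Real.sin (f v) := by
        linear_combination (Real.cos (f v) * Real.sin (f v)) * hτ2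
      rw [← e] at hq
      exact (mul_pos_iff_of_pos_right h1).1 hq
    · exact h1
  have hp : ∀ v ∈ V, 0 < Real.cos (f v) * Real.sin (f v) → (-1 : ℝ) ^ ⌊f v / Real.pi⌋ = τ := by
    intro v hv hq
    have h1 := hs v hv hq
    rcases hτ with h2 | h2
    · rw [h2, one_mul] at h1
      rw [h2, (fl_even h1).neg_one_zpow]
    · rw [h2] at h1
      rw [h2, (fl_odd (by linarith)).neg_one_zpow]
  have key : ∀ {z w : X}, z ∈ V → w ∈ V → 0 < Real.cos (f z) * Real.sin (f z) →
      0 < Real.cos (f w) * Real.sin (f w) → ¬ ⌊f z / Real.pi⌋ < ⌊f w / Real.pi⌋ := by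
    intro z w hz hw qz qw hlt
    have p1 := hp z hz qz
    have p2 := hp w hw qw
    obtain ⟨-, a2⟩ := half_fl qz
    obtain ⟨b1, -⟩ := half_fl qw
    set k := ⌊f z / Real.pi⌋
    set l := ⌊f w / Real.pi⌋
    have hkl : k + 2 ≤ l := by
      by_contra hcon
      have hl : l = k + 1 := by omega
      rw [hl, zpow_add₀ (by norm_num), p1, zpow_one] at p2
      have : τ = 0 := by linarith
      rw [this] at hτ2
      norm_num at hτ2
    have hkl' : (k : ℝ) + 2 ≤ l := by exact_mod_cast hkl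
    obtain ⟨v, hv, hv0⟩ := hV.intermediate_value hz hw hf
      (show (Real.pi / 4 + Real.pi + k * Real.pi : ℝ) ∈ Icc (f z) (f w) from
        ⟨by linarith, by nlinarith⟩)
    have c4 : 0 < Real.cos (Real.pi / 4) := Real.cos_pos_of_mem_Ioo ⟨by linarith, by linarith⟩
    have s4 : 0 < Real.sin (Real.pi / 4) := Real.sin_pos_of_pos_of_lt_pi (by linarith) (by linarith)
    have := h v hv
    rw [hv0, Real.cos_add_int_mul_pi, Real.sin_add_int_mul_pi, Real.cos_add_pi, Real.sin_add_pi, p1,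
      ← mul_assoc, ← mul_assoc, hτ2] at this
    rcases this with h | h <;> linarith
  rcases lt_trichotomy ⌊f z / Real.pi⌋ ⌊f w / Real.pi⌋ with h | h | h
  · exact absurd h (key hz hw qz qw)
  · exact h
  · exact absurd h (key hw hz qw qz)

/-- the branches of a cusp as graphs -/
theorem exG {K : ℝ → ℂ} {s ρ : ℝ} (hρ : 0 < ρ) (hc : Continuous K) (K0 : K s = 0)
    (h2 : ∀ x y : ℝ, s ≤ x → x < y → y < s + ρ → 5 * |(K y - K x).im| < 2 * (K y - K x).re)
    (h1 : ∀ x y : ℝ, s - ρ < x → x < y → y ≤ s → 5 * |(K x - K y).im| < 2 * (K x - K y).re)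
    (inj : ∀ x y : ℝ, s - ρ < x → x ≤ s → s ≤ y → y < s + ρ → x < y → K x ≠ K y) :
    ∃ R f g, Germ K s ρ R f g ∨ Germ (fun t => (starRingEnd ℂ) (K t)) s ρ R f g := by
  have mono2 : ∀ x y, s ≤ x → x < y → y < s + ρ → (K x).re < (K y).re := fun x y a b d => by
    have := h2 x y a b d
    have h4 := abs_nonneg (K y - K x).im
    rw [sub_re] at this
    linarith
  have mono1 : ∀ x y, s - ρ < x → x < y → y ≤ s → (K y).re < (K x).re := fun x y a b d => by
    have := h1 x y a b d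
    have h4 := abs_nonneg (K x - K y).im
    rw [sub_re] at this
    linarith
  obtain ⟨R1, hR1, f, hf, f0, f1, f2⟩ := branch (m := fun t => K (s - t)) hρ (by fun_prop)
    (by simp [K0]) (fun x y a b d => h1 (s - y) (s - x) (by linarith) (by linarith) (by linarith))
  obtain ⟨R2, hR2, g, hg, g0, g1, g2⟩ := branch (m := fun t => K (s + t)) hρ (by fun_prop)
    (by simp [K0]) (fun x y a b d => h2 (s + x) (s + y) (by linarith) (by linarith) (by linarith))
  obtain ⟨R, hR, l1, l2⟩ : ∃ R > 0, R ≤ R1 ∧ R ≤ R2 := ⟨min R1 R2, by positivity, min_le_left _ _,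
    min_le_right _ _⟩
  have L1 : ∀ t, s - ρ < t → t ≤ s → (K t).re ≤ R → (K t).im = f (K t).re := fun t a b d => by
    have := f1 (s - t) (by linarith) (by linarith)
    simp only [sub_sub_cancel] at this
    exact this (by linarith)
  have L2 : ∀ t, s ≤ t → t < s + ρ → (K t).re ≤ R → (K t).im = g (K t).re := fun t a b d => by
    have := g1 (t - s) (by linarith) (by linarith)
    simp only [add_sub_cancel] at this
    exact this (by linarith)
  have S1 : ∀ u, 0 ≤ u → u ≤ R → ∃ t, (s - ρ < t ∧ t ≤ s) ∧ (K t).re = u ∧ (K t).im = f u :=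
    fun u a b => by
    obtain ⟨t, t0, t1, t2, t3⟩ := f2 u a (by linarith)
    exact ⟨s - t, ⟨by linarith, by linarith⟩, t2, t3⟩
  have S2 : ∀ u, 0 ≤ u → u ≤ R → ∃ t, (s ≤ t ∧ t < s + ρ) ∧ (K t).re = u ∧ (K t).im = g u :=
    fun u a b => by
    obtain ⟨t, t0, t1, t2, t3⟩ := g2 u a (by linarith)
    exact ⟨s + t, ⟨by linarith, by linarith⟩, t2, t3⟩
  have ne : ∀ u ∈ Ioc 0 R, g u - f u ≠ 0 := by
    intro u hu h0
    obtain ⟨t1, ⟨a1, a2⟩, a3, a4⟩ := S1 u hu.1.le hu.2
    obtain ⟨t2, ⟨b1, b2⟩, b3, b4⟩ := S2 u hu.1.le hu.2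
    refine inj t1 t2 a1 a2 b1 b2 ?_ (Complex.ext (by rw [a3, b3]) (by rw [a4, b4]; linarith))
    rcases a2.eq_or_lt with h | h
    · exfalso
      rw [h, K0, zero_re] at a3
      linarith [hu.1]
    · linarith
  have hcf := hf.cont
  have hcg := hg.cont
  have sg : ∀ u ∈ Ioc 0 R, 0 < (g u - f u) * (g R - f R) := fun u hu =>
    sign_pre isPreconnected_Ioc (f := fun u => g u - f u) (by fun_prop) ne hu ⟨hR, le_rfl⟩
  rcases lt_or_gt_of_ne (ne R ⟨hR, le_rfl⟩) with hlt | hgt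
  · refine ⟨R, fun u => -f u, fun u => -g u, Or.inr ⟨hρ, hR, ?_, ?_, ?_, ?_, ?_, ?_, ?_, ?_, ?_, ?_,
      ?_, ?_, ?_⟩⟩
    · intro u v
      rw [neg_sub_neg, abs_sub_comm]; exact hf u v
    · intro u v
      rw [neg_sub_neg, abs_sub_comm]; exact hg u v
    · simp only [f0, neg_zero]
    · simp only [g0, neg_zero]
    · simp only [K0, map_zero]
    · fun_prop
    · intro u hu
      have := sg u hu
      by_contra hc
      have h3 : 0 ≤ g u - f u := by linarith
      linarith [mul_nonpos_of_nonneg_of_nonpos h3 hlt.le]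
    · intro x y a b d
      simp only [conj_re]
      exact mono1 x y a b d
    · intro x y a b d
      simp only [conj_re]
      exact mono2 x y a b d
    · intro t a b d
      simp only [conj_re, conj_im] at d ⊢
      rw [L1 t a b d]
    · intro t a b d
      simp only [conj_re, conj_im] at d ⊢
      rw [L2 t a b d]
    · intro u a b
      obtain ⟨t, -, h3, h4⟩ := S1 u a b
      exact ⟨t, by simp only [conj_re]; exact h3, by simp only [conj_im]; rw [h4]⟩
    · intro u a b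
      obtain ⟨t, -, h3, h4⟩ := S2 u a b
      exact ⟨t, by simp only [conj_re]; exact h3, by simp only [conj_im]; rw [h4]⟩
  · refine ⟨R, f, g, Or.inl ⟨hρ, hR, hf, hg, f0, g0, K0, hc, ?_, mono1, mono2, L1, L2, ?_, ?_⟩⟩
    · intro u hu
      have := (mul_pos_iff_of_pos_right hgt).1 (sg u hu)
      linarith
    · intro u a b
      obtain ⟨t, -, h3, h4⟩ := S1 u a b
      exact ⟨t, h3, h4⟩
    · intro u a b
      obtain ⟨t, -, h3, h4⟩ := S2 u a b
      exact ⟨t, h3, h4⟩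

/-- signs near a germ, combined -/
theorem Germ.both {K : ℝ → ℂ} {s ρ R : ℝ} {f g : ℝ → ℝ} (G : Germ K s ρ R f g)
    (nosq : NoSq (range K)) {m : ℂ → ℝ} (hm : Continuous m)
    (hz : ∀ z, m z = 0 → z ∈ range K) {r0 : ℝ} (hr0 : 0 < r0)
    (near : ∀ t, ‖K t‖ < r0 → ∃ t', |t' - s| < ρ ∧ K t' = K t) :
    ∃ τ : ℝ, (τ = 1 ∨ τ = -1) ∧ ∃ ρ' > 0, ∀ x y, |x - s| < ρ' → |y - s| < ρ' → x < y →
      0 < τ * m (DD K x y) ∨ 0 < τ * m (CC K x y) := by
  obtain ⟨τ, hτ, r, hr, H⟩ := G.sign hm hz hr0 near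
  obtain ⟨ρ', hρ', -, T⟩ := G.two nosq
  obtain ⟨e, he, hK⟩ := Metric.continuous_iff.1 G.cont s (r / 3) (by positivity)
  have hK' : ∀ t, |t - s| < e → ‖K t‖ < r / 3 := fun t ht => by
    have h1 := hK t (by rwa [Real.dist_eq])
    rwa [G.K0, dist_zero_right] at h1
  refine ⟨τ, hτ, min e ρ', lt_min he hρ', fun x y hx hy hxy => ?_⟩
  have kx := hK' x (hx.trans_le (min_le_left _ _))
  have ky := hK' y (hy.trans_le (min_le_left _ _))
  have nI : ‖I * (K y - K x)‖ < r / 3 + r / 3 := by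
    rw [norm_mul, norm_I, one_mul]
    exact (norm_sub_le _ _).trans_lt (by linarith)
  rcases T x y (hx.trans_le (min_le_right _ _)) (hy.trans_le (min_le_right _ _)) hxy with h | h
  · left
    refine H _ ?_ (Or.inl h)
    rw [DD_eq]
    exact (norm_add_le _ _).trans_lt (by linarith)
  · right
    refine H _ ?_ (Or.inr h)
    rw [CC_eq]
    exact (norm_add_le _ _).trans_lt (by linarith)

variable {c : ℝ → ℂ}

theorem Csp.sign (L : Loop c) (J : Inj c) (nosq : NoSq (range c)) {s : ℝ} (h : Csp c s) :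
    ∃ τ : ℝ, (τ = 1 ∨ τ = -1) ∧ ∃ ρ > 0,
      (∀ x y, |x - s| < ρ → |y - s| < ρ → x < y →
        0 < τ * mgc c (DD c x y) ∨ 0 < τ * mgc c (CC c x y)) ∨
      (∀ x y, |x - s| < ρ → |y - s| < ρ → x < y →
        0 < τ * mgc c (DD c y x) ∨ 0 < τ * mgc c (CC c y x)) := by
  obtain ⟨ρ0, hρ0, w, h2, h1⟩ := h
  obtain ⟨ρ, hρ, l1, l2⟩ : ∃ ρ > 0, ρ ≤ ρ0 ∧ ρ ≤ 1 / 2 := ⟨min ρ0 (1 / 2), by positivity,
    min_le_left _ _, min_le_right _ _⟩
  have hw : w ≠ 0 := by
    rintro rfl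
    have := h2 s (s + ρ0 / 2) le_rfl (by linarith) (by linarith)
    simp at this
  have hcc := L.cont
  have hmc := (mgc_sg L).cont
  have hM0 : ∀ z, mgc c z = 0 → z ∈ range c := fun z hz => ((mgc_sg L).zero L).1 hz
  obtain ⟨K, hK⟩ : ∃ K : ℝ → ℂ, K = fun t => w * (c t - c s) := ⟨_, rfl⟩
  have hKt : ∀ t, K t = w * (c t - c s) := fun t => by rw [hK]
  have hKc : Continuous K := by rw [hK]; fun_prop
  have hd : ∀ x y, K y - K x = w * (c y - c x) := fun x y => by rw [hKt, hKt]; ring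
  obtain ⟨ρ1, hρ1, hn⟩ := near_par L J hρ
  have near : ∀ t, ‖K t‖ < ‖w‖ * ρ1 → ∃ t', |t' - s| < ρ ∧ c t' = c t := by
    intro t ht
    rw [hKt, norm_mul] at ht
    obtain ⟨n, e, he, hte⟩ := hn t s ((mul_lt_mul_iff_right₀ (norm_pos_iff.2 hw)).1 ht)
    refine ⟨s + e, by rwa [add_sub_cancel_left], ?_⟩
    rw [hte, L.per_int]
  have hr0 : 0 < ‖w‖ * ρ1 := mul_pos (norm_pos_iff.2 hw) hρ1
  have Kinj : ∀ x y, K x = K y → c x = c y := by
    intro x y hxy
    rw [hKt, hKt] at hxy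
    have := mul_left_cancel₀ hw hxy
    linear_combination this
  obtain ⟨R, f, g, hG⟩ := exG (K := K) (s := s) hρ hKc (by rw [hKt]; ring)
    (fun x y a b d => by rw [hd]; exact h2 x y a b (by linarith))
    (fun x y a b d => by rw [hd]; exact h1 x y (by linarith) b d)
    (fun x y a b d e hxy hK => J x y hxy (by linarith) (Kinj x y hK))
  rcases hG with G | G
  · obtain ⟨τ, hτ, ρ', hρ', H⟩ := G.both (m := fun z => mgc c (z / w + c s))
      (by
        rintro ⟨z, v, hv, ⟨t1, e1⟩, ⟨t2, e2⟩, ⟨t3, e3⟩, ⟨t4, e4⟩⟩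
        rw [hKt] at e1 e2 e3 e4
        refine nosq ⟨z / w + c s, v / w, div_ne_zero hv hw, ⟨t1, ?_⟩, ⟨t2, ?_⟩, ⟨t3, ?_⟩, ⟨t4, ?_⟩⟩
        · field_simp; linear_combination e1
        · field_simp; linear_combination e2
        · field_simp; linear_combination e3
        · field_simp; linear_combination e4) (by fun_prop)
      (by
        intro z hz
        obtain ⟨t, ht⟩ := hM0 _ hz
        refine ⟨t, ?_⟩
        rw [hKt, ht]; field_simp; ring) hr0
      (by
        intro t ht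
        obtain ⟨t', a1, a2⟩ := near t ht
        exact ⟨t', a1, by rw [hKt, hKt, a2]⟩)
    refine ⟨τ, hτ, ρ', hρ', Or.inl fun x y hx hy hxy => ?_⟩
    have := H x y hx hy hxy
    have e1 : DD K x y / w + c s = DD c x y := by
      rw [DD_eq, DD_eq, hKt, hKt]; field_simp; ring
    have e2 : CC K x y / w + c s = CC c x y := by
      rw [CC_eq, CC_eq, hKt, hKt]; field_simp; ring
    rwa [e1, e2] at this
  · obtain ⟨τ, hτ, ρ', hρ', H⟩ := G.both (m := fun z => mgc c ((starRingEnd ℂ) z / w + c s))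
      (by
        rintro ⟨z, v, hv, ⟨t1, e1⟩, ⟨t2, e2⟩, ⟨t3, e3⟩, ⟨t4, e4⟩⟩
        simp only [hKt] at e1 e2 e3 e4
        have e1 := congrArg (starRingEnd ℂ) e1
        have e2 := congrArg (starRingEnd ℂ) e2
        have e3 := congrArg (starRingEnd ℂ) e3
        have e4 := congrArg (starRingEnd ℂ) e4
        simp only [conj_conj, map_add, map_mul, conj_I] at e1 e2 e3 e4
        refine nosq ⟨((starRingEnd ℂ) z - I * (starRingEnd ℂ) v) / w + c s, (starRingEnd ℂ) v / w,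
          div_ne_zero ((map_ne_zero _).2 hv) hw, ⟨t4, ?_⟩, ⟨t3, ?_⟩, ⟨t2, ?_⟩, ⟨t1, ?_⟩⟩
        · field_simp; linear_combination e4
        · field_simp; linear_combination e3
        · field_simp; linear_combination e2
        · field_simp; linear_combination e1) (by fun_prop)
      (by
        intro z hz
        obtain ⟨t, ht⟩ := hM0 _ hz
        refine ⟨t, ?_⟩
        have : K t = (starRingEnd ℂ) z := by rw [hKt, ht]; field_simp; ring
        simp only [this, conj_conj]) hr0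
      (by
        intro t ht
        obtain ⟨t', a1, a2⟩ := near t (by simpa using ht)
        exact ⟨t', a1, by simp only [hKt, a2]⟩)
    refine ⟨τ, hτ, ρ', hρ', Or.inr fun x y hx hy hxy => ?_⟩
    have := H x y hx hy hxy
    have e1 : (starRingEnd ℂ) (DD (fun t => (starRingEnd ℂ) (K t)) x y) / w + c s = CC c y x := by
      rw [DD_eq, CC_eq, hKt, hKt]
      simp only [map_add, map_mul, map_sub, conj_conj, conj_I]
      field_simp; ring
    have e2 : (starRingEnd ℂ) (CC (fun t => (starRingEnd ℂ) (K t)) x y) / w + c s = DD c y x := by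
      rw [CC_eq, DD_eq, hKt, hKt]
      simp only [map_add, map_mul, map_sub, conj_conj, conj_I]
      field_simp; ring
    simp only [e1, e2] at this
    exact this.symm

variable {θ : ℝ → ℝ → ℝ} {g : ℤ}

/-- at a cusp the number of half turns does not change -/
theorem Csp.KL (L : Loop c) (J : Inj c) (nosq : NoSq (range c)) (A : Ang c (mgc c) θ g) {s : ℝ}
    (h : Csp c s) : ∃ ρ > 0, ∀ p q, |p - s| < ρ → |q - s| < ρ → p < q → Cone c p → Cone c q →
      ∀ k l, KL θ p k → KL θ q l → k = l := by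
  obtain ⟨τ, hτ, ρ0, hρ0, H⟩ := h.sign L J nosq
  obtain ⟨ρ, hρ, l1, l2⟩ : ∃ ρ > 0, ρ ≤ ρ0 ∧ ρ ≤ 1 / 2 := ⟨min ρ0 (1 / 2), by positivity,
    min_le_left _ _, min_le_right _ _⟩
  refine ⟨ρ, hρ, fun p q hp hq hpq Cp Cq k l hk hl => ?_⟩
  have hqp : q < p + 1 := Tri_UU l2 hp hq hpq
  rcases H with H | H
  · have near : ∀ {p k}, |p - s| < ρ → Cone c p → Pool.Agent.Y535.PEG.KL θ p k → ∃ v ∈ Tri s ρ,
        ⌊θ v.1 v.2 / Real.pi⌋ = k ∧ 0 < Real.cos (θ v.1 v.2) * Real.sin (θ v.1 v.2) := by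
      rintro p k hp Cp ⟨r1, hr1, h1⟩
      obtain ⟨r2, hr2, h2⟩ := cone_sign L J Cp
      obtain ⟨r, hr, a1, a2, a3⟩ : ∃ r > 0, r ≤ r1 ∧ r ≤ r2 ∧ |p - s| + r ≤ ρ :=
        ⟨min (min r1 r2) (ρ - |p - s|), by
          have : 0 < ρ - |p - s| := by linarith
          positivity, (min_le_left _ _).trans (min_le_left _ _),
          (min_le_left _ _).trans (min_le_right _ _), by
          linarith [min_le_right (min r1 r2) (ρ - |p - s|)]⟩
      obtain ⟨x, y, hx, hy, hxy⟩ := pair_near (s := p) hr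
      refine ⟨(x, y), Tri_mono a3 ⟨hx, hy, hxy⟩, h1 x y (hx.trans_le a1) (hy.trans_le a1) hxy, ?_⟩
      have hxs := near_tr a3 hx
      have hys := near_tr a3 hy
      exact cs_pos A hxy (Tri_UU l2 hxs hys hxy) (h2 x y (hx.trans_le a2) (hy.trans_le a2) hxy).1
    obtain ⟨z, hz, z1, z2⟩ := near hp Cp hk
    obtain ⟨w, hw, w1, w2⟩ := near hq Cq hl
    rw [← z1, ← w1]
    refine quad_floor (Tri_pre s ρ) (f := fun v => θ v.1 v.2) (A.cont.mono fun v hv =>
      ⟨hv.2.2, Tri_UU l2 hv.1 hv.2.1 hv.2.2⟩) hτ (fun v hv => ?_) hz hw z2 w2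
    obtain ⟨r, hr, e1, e2⟩ := A.ex v.1 v.2 hv.2.2 (Tri_UU l2 hv.1 hv.2.1 hv.2.2)
    have := H v.1 v.2 (hv.1.trans_le l1) (hv.2.1.trans_le l1) hv.2.2
    rw [e1, e2] at this
    rcases this with h | h
    · left
      rw [show τ * (r * Real.cos (θ v.1 v.2)) = r * (τ * Real.cos (θ v.1 v.2)) by ring] at h
      exact (mul_pos_iff_of_pos_left hr).1 h
    · right
      rw [show τ * (r * Real.sin (θ v.1 v.2)) = r * (τ * Real.sin (θ v.1 v.2)) by ring] at h
      exact (mul_pos_iff_of_pos_left hr).1 h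
  · obtain ⟨k', hk'⟩ := exKR L J A Cp
    obtain ⟨l', hl'⟩ := exKR L J A Cq
    have hUU : ∀ v ∈ Tri s ρ, v.2 < v.1 + 1 ∧ v.1 + 1 < v.2 + 1 := fun v hv =>
      ⟨Tri_UU l2 hv.1 hv.2.1 hv.2.2, by linarith [hv.2.2]⟩
    have near : ∀ {p k}, |p - s| < ρ → Cone c p → KR θ p k → ∃ v ∈ Tri s ρ,
        ⌊θ v.2 (v.1 + 1) / Real.pi⌋ = k ∧
          0 < Real.cos (θ v.2 (v.1 + 1)) * Real.sin (θ v.2 (v.1 + 1)) := by
      rintro p k hp Cp ⟨r1, hr1, h1⟩
      obtain ⟨r2, hr2, h2⟩ := cone_sign L J Cp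
      obtain ⟨r, hr, a1, a2, a3⟩ : ∃ r > 0, r ≤ r1 ∧ r ≤ r2 ∧ |p - s| + r ≤ ρ :=
        ⟨min (min r1 r2) (ρ - |p - s|), by
          have : 0 < ρ - |p - s| := by linarith
          positivity, (min_le_left _ _).trans (min_le_left _ _),
          (min_le_left _ _).trans (min_le_right _ _), by
          linarith [min_le_right (min r1 r2) (ρ - |p - s|)]⟩
      obtain ⟨x, y, hx, hy, hxy⟩ := pair_near (s := p) hr
      refine ⟨(x, y), Tri_mono a3 ⟨hx, hy, hxy⟩, h1 x y (hx.trans_le a1) (hy.trans_le a1) hxy, ?_⟩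
      have hxs := near_tr a3 hx
      have hys := near_tr a3 hy
      refine cs_pos A (Tri_UU l2 hxs hys hxy) (by simp only; linarith) ?_
      rw [DD_per1 L, CC_per1 L]
      exact (h2 x y (hx.trans_le a2) (hy.trans_le a2) hxy).2
    obtain ⟨z, hz, z1, z2⟩ := near hp Cp hk'
    obtain ⟨w, hw, w1, w2⟩ := near hq Cq hl'
    have e : k' = l' := by
      rw [← z1, ← w1]
      refine quad_floor (Tri_pre s ρ) (f := fun v => θ v.2 (v.1 + 1)) (A.cont.comp
        (f := fun v : ℝ × ℝ => ((v.2, v.1 + 1) : ℝ × ℝ)) (by fun_prop) fun v hv => hUU v hv) hτ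
        (fun v hv => ?_) hz hw z2 w2
      obtain ⟨r, hr, e1, e2⟩ := A.ex v.2 (v.1 + 1) (hUU v hv).1 (hUU v hv).2
      have := H v.1 v.2 (hv.1.trans_le l1) (hv.2.1.trans_le l1) hv.2.2
      rw [← DD_per1 L, ← CC_per1 L, e1, e2] at this
      rcases this with h | h
      · left
        rw [show τ * (r * Real.cos (θ v.2 (v.1 + 1))) = r * (τ * Real.cos (θ v.2 (v.1 + 1))) by
          ring] at h
        exact (mul_pos_iff_of_pos_left hr).1 h
      · right
        rw [show τ * (r * Real.sin (θ v.2 (v.1 + 1))) = r * (τ * Real.sin (θ v.2 (v.1 + 1))) by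
          ring] at h
        exact (mul_pos_iff_of_pos_left hr).1 h
    have := parityX jP jT1 Y407.PEG.sgU jI L J nosq A hpq hqp Cp Cq hk hl hk' hl'
    linarith

end Pool.Agent.Helper584_CU
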