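import Pool.Agent.Helper584_CU.Core
import Pool.Agent.Y535.PEG.ExD

/-! Cusps of a plane curve: the two branches as Lipschitz graphs, and the squares near a cusp. -/

set_option autoImplicit false
open Complex Set Topology Metric

namespace Pool.Agent.Helper584_CU

open Pool.Agent.H763R2 Pool.Agent.H763R2.An Pool.Agent.W675.Peg Pool.Agent.TH569.Peg
open Pool.Agent.Y535.PEG
open Pool.Agent.H763R2.Dm (NoSq)

/-- a half branch is a Lipschitz graph -/
theorem branch {m : ℝ → ℂ} {ρ : ℝ} (hρ : 0 < ρ) (hc : Continuous m) (m0 : m 0 = 0)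
    (h : ∀ x y, 0 ≤ x → x < y → y < ρ → 5 * |(m y - m x).im| < 2 * (m y - m x).re) :
    ∃ R > 0, ∃ f, Lip f ∧ f 0 = 0 ∧ (∀ t, 0 ≤ t → t < ρ → (m t).re ≤ R → (m t).im = f (m t).re) ∧
      ∀ u, 0 ≤ u → u ≤ R → ∃ t, 0 ≤ t ∧ t < ρ ∧ (m t).re = u ∧ (m t).im = f u := by
  have hmono : ∀ x y, 0 ≤ x → x < y → y < ρ → (m x).re < (m y).re := fun x y h1 h2 h3 => by
    have := h x y h1 h2 h3
    have h4 := abs_nonneg (m y - m x).im
    rw [sub_re] at this
    linarith
  have hre : Continuous fun t => (m t).re := continuous_re.comp hc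
  obtain ⟨R, hR⟩ : ∃ R, R = (m (ρ / 2)).re := ⟨_, rfl⟩
  have hR0 : 0 < R := by
    have := hmono 0 (ρ / 2) le_rfl (by linarith) (by linarith)
    rw [m0, zero_re] at this
    rwa [hR]
  have ex : ∀ u : ℝ, ∃ t, t ∈ Icc 0 (ρ / 2) ∧ (m t).re = max 0 (min u R) := fun u => by
    have := intermediate_value_Icc (a := 0) (b := ρ / 2) (by linarith) hre.continuousOn
      (show max 0 (min u R) ∈ Icc (m 0).re (m (ρ / 2)).re from ⟨by rw [m0, zero_re]; exact le_max_left _ _,
        by rw [← hR]; exact max_le hR0.le (min_le_right _ _)⟩)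
    exact this
  choose τ hτ1 hτ2 using ex
  have inj : ∀ x y, 0 ≤ x → x < ρ → 0 ≤ y → y < ρ → (m x).re = (m y).re → x = y := by
    intro x y h1 h2 h3 h4 h5
    rcases lt_trichotomy x y with h6 | h6 | h6
    · linarith [hmono x y h1 h6 h4]
    · exact h6
    · linarith [hmono y x h3 h6 h2]
  have hproj : ∀ u, 0 ≤ u → u ≤ R → max 0 (min u R) = u := fun u h1 h2 => by
    rw [min_eq_left h2, max_eq_right h1]
  have hl : ∀ u v : ℝ, |max 0 (min u R) - max 0 (min v R)| ≤ |u - v| := fun u v => by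
    refine (abs_max_sub_max_le_max _ _ _ _).trans ?_
    rw [sub_self, abs_zero, max_eq_right (abs_nonneg _)]
    refine (abs_min_sub_min_le_max _ _ _ _).trans ?_
    rw [sub_self, abs_zero, max_eq_left (abs_nonneg _)]
  refine ⟨R, hR0, fun u => (m (τ u)).im, ?_, ?_, ?_, ?_⟩
  · intro u v
    have h1 := hl u v
    rw [← hτ2 u, ← hτ2 v] at h1
    simp only
    rcases lt_trichotomy (τ u) (τ v) with h6 | h6 | h6
    · have := h _ _ (hτ1 u).1 h6 (by linarith [(hτ1 v).2])
      rw [sub_im, sub_re] at this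
      rw [abs_sub_comm] at h1 ⊢
      have h2 := le_abs_self ((m (τ v)).re - (m (τ u)).re)
      linarith
    · rw [h6, sub_self, abs_zero]
      positivity
    · have := h _ _ (hτ1 v).1 h6 (by linarith [(hτ1 u).2])
      rw [sub_im, sub_re] at this
      have h2 := le_abs_self ((m (τ u)).re - (m (τ v)).re)
      linarith
  · have : τ 0 = 0 := inj _ _ (hτ1 0).1 (by linarith [(hτ1 0).2]) le_rfl hρ (by
      rw [hτ2, m0, zero_re, min_eq_left hR0.le, max_self])
    simp only
    rw [this, m0, zero_im]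
  · intro t h1 h2 h3
    have h4 : 0 ≤ (m t).re := by
      rcases h1.eq_or_lt with h5 | h5
      · rw [← h5, m0, zero_re]
      · have := hmono 0 t le_rfl h5 h2
        rw [m0, zero_re] at this
        exact this.le
    have : τ (m t).re = t := inj _ _ (hτ1 _).1 (by linarith [(hτ1 (m t).re).2]) h1 h2 (by
      rw [hτ2, hproj _ h4 h3])
    simp only
    rw [this]
  · intro u h1 h2
    exact ⟨τ u, (hτ1 u).1, by linarith [(hτ1 u).2], by rw [hτ2, hproj u h1 h2], rfl⟩

/-- the two branches of a cusp as graphs over the same side, the incoming branch below -/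
structure Germ (K : ℝ → ℂ) (s ρ R : ℝ) (f g : ℝ → ℝ) : Prop where
  ρ0 : 0 < ρ
  R0 : 0 < R
  hf : Lip f
  hg : Lip g
  f0 : f 0 = 0
  g0 : g 0 = 0
  K0 : K s = 0
  cont : Continuous K
  fg : ∀ a ∈ Ioc 0 R, f a < g a
  m1 : ∀ x y, s - ρ < x → x < y → y ≤ s → (K y).re < (K x).re
  m2 : ∀ x y, s ≤ x → x < y → y < s + ρ → (K x).re < (K y).re
  L1 : ∀ t, s - ρ < t → t ≤ s → (K t).re ≤ R → (K t).im = f (K t).re
  L2 : ∀ t, s ≤ t → t < s + ρ → (K t).re ≤ R → (K t).im = g (K t).re
  S1 : ∀ u, 0 ≤ u → u ≤ R → ∃ t, (K t).re = u ∧ (K t).im = f u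
  S2 : ∀ u, 0 ≤ u → u ≤ R → ∃ t, (K t).re = u ∧ (K t).im = g u

variable {K : ℝ → ℂ} {s ρ R : ℝ} {f g : ℝ → ℝ}

theorem Germ.no (G : Germ K s ρ R f g) (nosq : NoSq (range K)) :
    ∀ a ∈ Ioc 0 (R / 2), ∀ X Y, Tr f g a X Y → ht f g a X Y ≠ 0 := by
  intro a ha X Y T h0
  have hR := G.R0
  have h1 := abs3 (T.Yb G.hf)
  have h2 := T.XYb G.hf G.hg G.f0 G.g0
  have h3 := T.X0
  have h4 := T.Xa
  have h5 := ha.2
  obtain ⟨tA, a1, a2⟩ := G.S1 a ha.1.le (by linarith)
  obtain ⟨tD, d1, d2⟩ := G.S1 (a - X) (by linarith) (by linarith)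
  obtain ⟨tB, b1, b2⟩ := G.S2 (a - Y) (by linarith) (by linarith)
  obtain ⟨tE, e1, e2⟩ := G.S2 (a - X - Y) (by linarith) (by linarith)
  have hD : f (a - X) = f a - Y := by rw [T.eY]; ring
  unfold ht at h0
  refine nosq ⟨K tD, ⟨X, Y⟩, ?_, mem_range_self _, ⟨tA, ?_⟩, ⟨tB, ?_⟩, ⟨tE, ?_⟩⟩
  · intro h
    have := congrArg Complex.re h
    simp only [zero_re] at this
    linarith
  · apply Complex.ext
    · rw [add_re, a1, d1]; simp
    · rw [add_im, a2, d2, hD]; simp
  · apply Complex.ext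
    · simp only [add_re, mul_re, I_re, I_im, b1, d1]; ring
    · simp only [add_im, mul_im, I_re, I_im, b2, d2, hD, ← T.eX]; ring
  · apply Complex.ext
    · simp only [add_re, mul_re, I_re, I_im, e1, d1]; ring
    · simp only [add_im, mul_im, I_re, I_im, e2, d2]
      linarith

/-- near the cusp one of the two further vertices of a square on the left lies outside the cusp -/
theorem Germ.two (G : Germ K s ρ R f g) (nosq : NoSq (range K)) : ∃ ρ' > 0, ρ' ≤ ρ ∧
    ∀ x y, |x - s| < ρ' → |y - s| < ρ' → x < y →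
      (DD K x y).im < f (DD K x y).re ∨ g (CC K x y).re < (CC K x y).im := by
  have hR := G.R0
  obtain ⟨r, hr, hK⟩ := Metric.continuous_iff.1 G.cont s (R / 2) (by positivity)
  have hK' : ∀ t, |t - s| < r → (K t).re < R / 2 := fun t ht => by
    have h1 := hK t (by rwa [Real.dist_eq])
    rw [G.K0, dist_zero_right] at h1
    exact (le_abs_self _).trans_lt ((abs_re_le_norm _).trans_lt h1)
  have hno := G.no nosq
  have hfg : ∀ a ∈ Ioc 0 (R / 2), f a < g a := fun a ha => G.fg a ⟨ha.1, by linarith [ha.2]⟩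
  refine ⟨min r ρ, lt_min hr G.ρ0, min_le_right _ _, fun x y hx hy hxy => ?_⟩
  have kx := hK' x (hx.trans_le (min_le_left _ _))
  have ky := hK' y (hy.trans_le (min_le_left _ _))
  have bx := abs_lt.1 (hx.trans_le (min_le_right _ _))
  have by' := abs_lt.1 (hy.trans_le (min_le_right _ _))
  have eD1 : (DD K x y).re = (K x).re - ((K y).im - (K x).im) := by
    rw [DD_eq]; simp only [add_re, mul_re, I_re, I_im, sub_re, sub_im]; ring
  have eD2 : (DD K x y).im = (K x).im + ((K y).re - (K x).re) := by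
    rw [DD_eq]; simp only [add_im, mul_im, I_re, I_im, sub_re, sub_im]; ring
  have eC1 : (CC K x y).re = (K y).re - ((K y).im - (K x).im) := by
    rw [CC_eq]; simp only [add_re, mul_re, I_re, I_im, sub_re, sub_im]; ring
  have eC2 : (CC K x y).im = (K y).im + ((K y).re - (K x).re) := by
    rw [CC_eq]; simp only [add_im, mul_im, I_re, I_im, sub_re, sub_im]; ring
  rcases le_or_gt y s with hys | hys
  · left
    have h1 := G.L1 x (by linarith) (by linarith) (by linarith)
    have h2 := G.L1 y (by linarith) hys (by linarith)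
    have h3 := G.m1 x y (by linarith) hxy hys
    rw [eD1, eD2, h1, h2]
    have h4 := G.hf (K y).re (K x).re
    rw [abs_of_neg (show (K y).re - (K x).re < 0 by linarith)] at h4
    have h5 := G.hf ((K x).re - (f (K y).re - f (K x).re)) (K x).re
    rw [show (K x).re - (f (K y).re - f (K x).re) - (K x).re = -(f (K y).re - f (K x).re) by ring,
      abs_neg] at h5
    have h6 := abs3 (h5.trans (by linarith : _ ≤ 4 / 25 * -((K y).re - (K x).re)))
    linarith
  · rcases le_or_gt s x with hsx | hsx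
    · right
      have h1 := G.L2 x hsx (by linarith) (by linarith)
      have h2 := G.L2 y hys.le (by linarith) (by linarith)
      have h3 := G.m2 x y hsx hxy (by linarith)
      rw [eC1, eC2, h1, h2]
      have h4 := G.hg (K y).re (K x).re
      rw [abs_of_pos (show 0 < (K y).re - (K x).re by linarith)] at h4
      have h5 := G.hg ((K y).re - (g (K y).re - g (K x).re)) (K y).re
      rw [show (K y).re - (g (K y).re - g (K x).re) - (K y).re = -(g (K y).re - g (K x).re) by ring,
        abs_neg] at h5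
      have h6 := abs3 (h5.trans (by linarith : _ ≤ 4 / 25 * ((K y).re - (K x).re)))
      linarith
    · have h1 := G.L1 x (by linarith) hsx.le (by linarith)
      have h2 := G.L2 y hys.le (by linarith) (by linarith)
      have h3 := G.m1 x s (by linarith) hsx le_rfl
      rw [G.K0, zero_re] at h3
      have := core G.hf G.hg G.f0 G.g0 hfg hno (a := (K x).re) ⟨h3, kx.le⟩ (K y).re
      rw [eD1, eD2, eC1, eC2, h1, h2]
      rcases this with h | h
      · left
        rwa [show f (K x).re + ((K y).re - (K x).re) = f (K x).re - ((K x).re - (K y).re) by ring]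
      · right
        rwa [show g (K y).re + ((K y).re - (K x).re) = g (K y).re - ((K x).re - (K y).re) by ring]

/-- outside the cusp a function that vanishes at most on the curve has a constant sign -/
theorem Germ.sign (G : Germ K s ρ R f g) {m : ℂ → ℝ} (hm : Continuous m)
    (hz : ∀ z, m z = 0 → z ∈ range K) {r0 : ℝ} (hr0 : 0 < r0)
    (near : ∀ t, ‖K t‖ < r0 → ∃ t', |t' - s| < ρ ∧ K t' = K t) :
    ∃ τ : ℝ, (τ = 1 ∨ τ = -1) ∧ ∃ r > 0, ∀ z, ‖z‖ < r → (z.im < f z.re ∨ g z.re < z.im) →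
      0 < τ * m z := by
  have hR := G.R0
  obtain ⟨q, hq, q1, q2⟩ : ∃ q > 0, q ≤ r0 ∧ q ≤ R := ⟨min r0 R, by positivity, min_le_left _ _,
    min_le_right _ _⟩
  have re0 : ∀ t, |t - s| < ρ → 0 ≤ (K t).re := fun t ht => by
    have ht' := abs_lt.1 ht
    rcases lt_trichotomy t s with h | h | h
    · have := G.m1 t s (by linarith) h le_rfl
      rw [G.K0, zero_re] at this
      exact this.le
    · rw [h, G.K0, zero_re]
    · have := G.m2 s t le_rfl h (by linarith)
      rw [G.K0, zero_re] at this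
      exact this.le
  -- points of the curve near the tip
  have tip : ∀ z : ℂ, ‖z‖ < q → z ∈ range K → 0 ≤ z.re ∧ (z.im = f z.re ∨ z.im = g z.re) := by
    rintro _ hzq ⟨t, rfl⟩
    obtain ⟨t', h1, h2⟩ := near t (hzq.trans_le q1)
    have h3 := abs_lt.1 h1
    have h4 : (K t').re ≤ R := by
      rw [h2]
      exact ((le_abs_self _).trans (abs_re_le_norm _)).trans (hzq.le.trans q2)
    refine ⟨by rw [← h2]; exact re0 t' h1, ?_⟩
    rw [← h2]
    rcases le_total t' s with h5 | h5
    · exact Or.inl (G.L1 t' (by linarith) h5 h4)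
    · exact Or.inr (G.L2 t' h5 (by linarith) h4)
  have fg0 : ∀ u, u ≤ R → 0 ≤ u → f u ≤ g u := fun u h1 h2 => by
    rcases h2.eq_or_lt with h3 | h3
    · rw [← h3, G.f0, G.g0]
    · exact (G.fg u ⟨h3, h1⟩).le
  have offl : ∀ z : ℂ, ‖z‖ < q → z.im < f z.re → m z ≠ 0 := by
    intro z h1 h2 h3
    obtain ⟨h4, h5⟩ := tip z h1 (hz z h3)
    have h6 := fg0 z.re (((le_abs_self _).trans (abs_re_le_norm _)).trans (h1.le.trans q2)) h4
    rcases h5 with h5 | h5 <;> linarith
  have offu : ∀ z : ℂ, ‖z‖ < q → g z.re < z.im → m z ≠ 0 := by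
    intro z h1 h2 h3
    obtain ⟨h4, h5⟩ := tip z h1 (hz z h3)
    have h6 := fg0 z.re (((le_abs_self _).trans (abs_re_le_norm _)).trans (h1.le.trans q2)) h4
    rcases h5 with h5 | h5 <;> linarith
  have offn : ∀ z : ℂ, ‖z‖ < q → z.re < 0 → m z ≠ 0 := by
    intro z h1 h2 h3
    linarith [(tip z h1 (hz z h3)).1]
  set z0 : ℂ := ((-(q / 4) : ℝ) : ℂ) with hz0
  have nz0 : ‖z0‖ = q / 4 := by
    rw [hz0, norm_real, Real.norm_eq_abs, abs_neg, abs_of_pos (by positivity)]
  have rz0 : z0.re = -(q / 4) := by rw [hz0, ofReal_re]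
  -- the left half disc
  have half : ∀ z : ℂ, ‖z‖ < q → z.re < 0 → 0 < m z * m z0 := by
    intro z h1 h2
    have hconv : Convex ℝ (ball (0:ℂ) q ∩ {z : ℂ | z.re < 0}) :=
      (convex_ball _ _).inter (convex_halfSpace_re_lt 0)
    refine sign_pre hconv.isPreconnected hm.continuousOn (fun w hw => offn w ?_ hw.2) ⟨?_, h2⟩
      ⟨?_, ?_⟩
    · simpa using hw.1
    · simpa using h1
    · rw [mem_ball_zero_iff, nz0]; linarith
    · show z0.re < 0; rw [rz0]; linarith
  have ray : ∀ (z v : ℂ), ‖z‖ < q / 4 → v.re = -1 → ‖v‖ ≤ 3 / 2 →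
      (∀ t : ℝ, 0 ≤ t → ‖z + t * v‖ < q → m (z + t * v) ≠ 0) → 0 < m z * m z0 := by
    intro z v h1 h2 h3 h4
    have hn : ∀ t : ℝ, 0 ≤ t → t ≤ q / 4 → ‖z + t * v‖ < q := by
      intro t t0 t1
      refine (norm_add_le _ _).trans_lt ?_
      rw [norm_mul, norm_real, Real.norm_eq_abs, abs_of_nonneg t0]
      have : t * ‖v‖ ≤ q / 4 * (3 / 2) := mul_le_mul t1 h3 (norm_nonneg _) (by positivity)
      linarith
    have e1 : 0 < m (z + ((0:ℝ):ℂ) * v) * m (z + ((q / 4 : ℝ) : ℂ) * v) :=
      sign_pre (V := Icc (0:ℝ) (q / 4)) isPreconnected_Icc (f := fun t : ℝ => m (z + t * v))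
        (by fun_prop) (fun t ht => h4 t ht.1 (hn t ht.1 ht.2)) (left_mem_Icc.2 (by positivity))
        (right_mem_Icc.2 (by positivity))
    rw [ofReal_zero, zero_mul, add_zero] at e1
    have e2 : 0 < m (z + ((q / 4 : ℝ) : ℂ) * v) * m z0 := by
      refine half _ (hn _ (by positivity) le_rfl) ?_
      rw [add_re, re_ofReal_mul, h2]
      have := (le_abs_self _).trans_lt ((abs_re_le_norm z).trans_lt h1)
      linarith
    have e3 : 0 < m z * m z0 * (m (z + ((q / 4 : ℝ) : ℂ) * v)) ^ 2 := by nlinarith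
    exact (mul_pos_iff_of_pos_right (by
      have := left_ne_zero_of_mul e2.ne'
      positivity)).1 e3
  have main : ∀ z : ℂ, ‖z‖ < q / 4 → (z.im < f z.re ∨ g z.re < z.im) → 0 < m z * m z0 := by
    intro z h1 h2
    rcases h2 with h2 | h2
    · refine ray z ⟨-1, -1⟩ h1 rfl ?_ (fun t t0 ht => offl _ ht ?_)
      · rw [← sq_le_sq₀ (norm_nonneg _) (by norm_num), ← normSq_eq_norm_sq, normSq_mk]; norm_num
      · simp only [add_im, add_re, im_ofReal_mul, re_ofReal_mul]
        have := abs3 (G.hf (z.re + t * -1) z.re)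
        rw [show z.re + t * -1 - z.re = -t by ring, abs_neg, abs_of_nonneg t0] at this
        linarith
    · refine ray z ⟨-1, 1⟩ h1 rfl ?_ (fun t t0 ht => offu _ ht ?_)
      · rw [← sq_le_sq₀ (norm_nonneg _) (by norm_num), ← normSq_eq_norm_sq, normSq_mk]; norm_num
      · simp only [add_im, add_re, im_ofReal_mul, re_ofReal_mul]
        have := abs3 (G.hg (z.re + t * -1) z.re)
        rw [show z.re + t * -1 - z.re = -t by ring, abs_neg, abs_of_nonneg t0] at this
        linarith
  rcases lt_or_gt_of_ne (offn z0 (by rw [nz0]; linarith) (by rw [rz0]; linarith)) with h | h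
  · refine ⟨-1, Or.inr rfl, q / 4, by positivity, fun z h1 h2 => ?_⟩
    have := main z h1 h2
    by_contra hc
    have h3 : 0 ≤ m z := by linarith
    linarith [mul_nonpos_of_nonneg_of_nonpos h3 h.le]
  · refine ⟨1, Or.inl rfl, q / 4, by positivity, fun z h1 h2 => ?_⟩
    have := (mul_pos_iff_of_pos_right h).1 (main z h1 h2)
    linarith

end Pool.Agent.Helper584_CU
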