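import Pool.Agent.Helper584_CU.Cusp
import Pool.Agent.H145R2.TRobust

/-! Jordan curves all of whose points are locally monotone or cusps. -/

set_option autoImplicit false
open Complex Set Topology Metric

namespace Pool.Agent.Helper584_CU

open Pool.Agent.H763R2 Pool.Agent.H763R2.An Pool.Agent.W675.Peg Pool.Agent.TH569.Peg
open Pool.Agent.Y535.PEG
open Pool.Agent.H763R2.Dm (NoSq)

variable {c : ℝ → ℂ} {θ : ℝ → ℝ → ℝ} {g : ℤ}

theorem cone_mon {s : ℝ} (h : Cone c s) : Mon c s := by
  obtain ⟨ρ, hρ, w, hw⟩ := h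
  exact ⟨ρ, hρ, w, fun x y hx hy hxy => (abs_nonneg _).trans_lt (hw x y hx hy hxy)⟩

theorem mon_nbhd {s : ℝ} (h : Mon c s) : ∃ ρ > 0, ∀ t, |t - s| < ρ → Mon c t := by
  obtain ⟨ρ, hρ, w, hw⟩ := h
  refine ⟨ρ / 2, by positivity, fun t ht => ⟨ρ / 2, by positivity, w, fun x y hx hy hxy => ?_⟩⟩
  exact hw x y (near_tr (by linarith) hx) (near_tr (by linarith) hy) hxy

theorem Csp.nbhd {s : ℝ} (h : Csp c s) : ∃ ρ > 0, ∀ t, |t - s| < ρ → t ≠ s → Cone c t := by
  obtain ⟨ρ, hρ, w, h2, h1⟩ := h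
  refine ⟨ρ, hρ, fun t ht hts => ?_⟩
  have hts' := abs_lt.1 ht
  rcases lt_or_gt_of_ne hts with h | h
  · obtain ⟨r, hr, r1, r2⟩ : ∃ r > 0, r ≤ s - t ∧ r ≤ t - (s - ρ) :=
      ⟨min (s - t) (t - (s - ρ)), lt_min (by linarith) (by linarith), min_le_left _ _,
        min_le_right _ _⟩
    refine ⟨r, hr, -w, fun x y hx hy hxy => ?_⟩
    have hx' := abs_lt.1 hx
    have hy' := abs_lt.1 hy
    have := h1 x y (by linarith) hxy (by linarith)
    have e : -w * (c y - c x) = w * (c x - c y) := by ring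
    rw [e]
    have h0 := abs_nonneg (w * (c x - c y)).im
    linarith
  · obtain ⟨r, hr, r1, r2⟩ : ∃ r > 0, r ≤ t - s ∧ r ≤ s + ρ - t :=
      ⟨min (t - s) (s + ρ - t), lt_min (by linarith) (by linarith), min_le_left _ _,
        min_le_right _ _⟩
    refine ⟨r, hr, w, fun x y hx hy hxy => ?_⟩
    have hx' := abs_lt.1 hx
    have hy' := abs_lt.1 hy
    have := h2 x y (by linarith) hxy (by linarith)
    have h0 := abs_nonneg (w * (c y - c x)).im
    linarith

/-- the number of half turns is constant along an arc with cusps -/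
theorem arc_const (L : Loop c) (J : Inj c) (nosq : NoSq (range c)) (A : Ang c (mgc c) θ g)
    {a b : ℝ} (hab : a < b) (hba : b < a + 1) (Ca : Cone c a) (Cb : Cone c b)
    (H : ∀ s ∈ Icc a b, Mon c s ∨ Csp c s) {k l : ℤ} (hk : KL θ a k) (hl : KL θ b l) : k = l := by
  obtain ⟨Z, hZ⟩ : ∃ Z : Set ℝ, Z = {t | t ∈ Icc a b ∧ ∃ q, a ≤ q ∧ q ≤ t ∧ Cone c q ∧ KL θ q k ∧
    ∀ r ∈ Icc q t, Mon c r} := ⟨_, rfl⟩
  have haZ : a ∈ Z := by
    rw [hZ]
    refine ⟨⟨le_rfl, hab.le⟩, a, le_rfl, le_rfl, Ca, hk, fun r hr => ?_⟩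
    rw [le_antisymm hr.2 hr.1]
    exact cone_mon Ca
  have hbd : BddAbove Z := ⟨b, fun t ht => by rw [hZ] at ht; exact ht.1.2⟩
  obtain ⟨T, hT⟩ : ∃ T, T = sSup Z := ⟨_, rfl⟩
  have hleT : ∀ t ∈ Z, t ≤ T := fun t ht => by rw [hT]; exact le_csSup hbd ht
  have haT : a ≤ T := hleT a haZ
  have hTb : T ≤ b := by
    rw [hT]
    exact csSup_le ⟨a, haZ⟩ fun t ht => by rw [hZ] at ht; exact ht.1.2
  have hnear : ∀ ε > 0, ∃ t ∈ Z, T - ε < t := fun ε hε =>
    exists_lt_of_lt_csSup ⟨a, haZ⟩ (by rw [← hT]; linarith)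
  by_cases hM : Mon c T
  · obtain ⟨ρ, hρ, hM'⟩ := mon_nbhd hM
    obtain ⟨t, htZ, ht⟩ := hnear ρ hρ
    have htT := hleT t htZ
    have htZ' := htZ
    rw [hZ] at htZ'
    obtain ⟨⟨-, -⟩, q, hq1, hq2, hq3, hq4, hq5⟩ := htZ'
    have hall : ∀ r ∈ Icc q (min (T + ρ / 2) b), Mon c r := by
      intro r hr
      rcases le_or_gt r t with h | h
      · exact hq5 r ⟨hr.1, h⟩
      · refine hM' r ?_
        have := hr.2.trans (min_le_left _ _)
        rw [abs_lt]
        constructor <;> linarith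
    have hmem : min (T + ρ / 2) b ∈ Z := by
      rw [hZ]
      have h1 : t ≤ min (T + ρ / 2) b := le_min (by linarith) (by linarith)
      exact ⟨⟨by linarith, min_le_right _ _⟩, q, hq1, by linarith, hq3, hq4, hall⟩
    have hTb' : T = b := by
      have := hleT _ hmem
      rcases le_total (T + ρ / 2) b with h | h
      · rw [min_eq_left h] at this; linarith
      · rw [min_eq_right h] at this; linarith
    rw [hTb', min_eq_right (by linarith)] at hall
    rcases (show q ≤ b by linarith).eq_or_lt with h | h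
    · rw [h] at hq4
      exact hq4.uniq hl
    · exact (monoX jP jT2 Y407.PEG.sgU jI L J nosq A h (by linarith) hq3 Cb hall hq4 hl).symm
  · exfalso
    have hC : Csp c T := (H T ⟨haT, hTb⟩).resolve_left hM
    have hTb' : T < b := lt_of_le_of_ne hTb fun h => hM (by rw [h]; exact cone_mon Cb)
    obtain ⟨r1, hr1, hN⟩ := hC.nbhd
    obtain ⟨r2, hr2, hK⟩ := hC.KL L J nosq A
    obtain ⟨r, hr, l1, l2, l3⟩ : ∃ r > 0, r ≤ r1 ∧ r ≤ r2 ∧ r ≤ b - T := by
      have : 0 < b - T := by linarith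
      exact ⟨min (min r1 r2) (b - T), by positivity, (min_le_left _ _).trans (min_le_left _ _),
        (min_le_left _ _).trans (min_le_right _ _), min_le_right _ _⟩
    obtain ⟨t, htZ, ht⟩ := hnear r hr
    have htT := hleT t htZ
    rw [hZ] at htZ
    obtain ⟨⟨-, -⟩, q, hq1, hq2, hq3, hq4, hq5⟩ := htZ
    have htT' : t < T := lt_of_le_of_ne htT fun h => hM (hq5 T ⟨by linarith, by linarith⟩)
    have hp1 : |(t + T) / 2 - T| < r := by rw [abs_lt]; constructor <;> linarith
    have hq1' : |T + r / 2 - T| < r := by rw [abs_lt]; constructor <;> linarith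
    have Cp : Cone c ((t + T) / 2) := hN _ (hp1.trans_le l1) (by intro h; linarith)
    have Cq : Cone c (T + r / 2) := hN _ (hq1'.trans_le l1) (by intro h; linarith)
    obtain ⟨kp, hkp⟩ := exKL L J A Cp
    obtain ⟨kq, hkq⟩ := exKL L J A Cq
    have e1 : kp = k := monoX jP jT2 Y407.PEG.sgU jI L J nosq A (by linarith) (by linarith) hq3 Cp
      (fun r' hr' => by
        rcases le_or_gt r' t with h | h
        · exact hq5 r' ⟨hr'.1, h⟩
        · have h2 := hr'.2
          refine cone_mon (hN r' ?_ (by intro h; linarith))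
          rw [abs_lt]
          constructor <;> linarith) hq4 hkp
    have e2 := hK _ _ (hp1.trans_le l2) (hq1'.trans_le l2) (by linarith) Cp Cq _ _ hkp hkq
    have hmem : T + r / 2 ∈ Z := by
      rw [hZ]
      refine ⟨⟨by linarith, by linarith⟩, T + r / 2, by linarith, le_rfl, Cq, ?_, fun r' hr' => ?_⟩
      · rw [← e1, e2]; exact hkq
      · rw [le_antisymm hr'.2 hr'.1]
        exact cone_mon Cq
    linarith [hleT _ hmem]

theorem inj_of_cusp (L : Loop c) (hinj : Set.InjOn c (Set.Ico 0 1)) : Inj c := by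
  intro x y hxy hy he
  have e1 : c (Int.fract x) = c x := by
    have := L.per_int (Int.fract x) ⌊x⌋
    rw [Int.fract_add_floor] at this
    exact this.symm
  have e2 : c (Int.fract y) = c y := by
    have := L.per_int (Int.fract y) ⌊y⌋
    rw [Int.fract_add_floor] at this
    exact this.symm
  have e3 := hinj ⟨Int.fract_nonneg x, Int.fract_lt_one x⟩
    ⟨Int.fract_nonneg y, Int.fract_lt_one y⟩ (by rw [e1, e2, he])
  obtain ⟨m, hm⟩ := Int.fract_eq_fract.1 e3
  have h1 : (m : ℝ) < 0 := by linarith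
  have h2 : (-1 : ℝ) < m := by linarith
  have h3 : m < 0 := by exact_mod_cast h1
  have h4 : -1 < m := by exact_mod_cast h2
  omega

/-- the main theorem -/
theorem cusp_square (hc : Continuous c) (hper : ∀ t, c (t + 1) = c t)
    (hinj : Set.InjOn c (Set.Ico 0 1)) (H : ∀ s, Mon c s ∨ Csp c s) :
    ∃ z w : ℂ, w ≠ 0 ∧ z ∈ Set.range c ∧ z + w ∈ Set.range c ∧
      z + w + Complex.I * w ∈ Set.range c ∧ z + Complex.I * w ∈ Set.range c := by
  have L : Loop c := ⟨hc, hper⟩
  have J : Inj c := inj_of_cusp L hinj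
  by_cases hall : ∀ s, Mon c s
  · have hJ : H145R2.TSq.Jor c := by
      refine ⟨hc, hper, fun s t hst => ?_⟩
      by_contra hcon
      push Not at hcon
      have e1 : c (s - ⌊s - t⌋) = c s := by
        have := L.per_int s (-⌊s - t⌋)
        push_cast at this
        rwa [← sub_eq_add_neg] at this
      have h1 := Int.floor_le (s - t)
      have h2 := Int.lt_floor_add_one (s - t)
      refine J t (s - ⌊s - t⌋) (lt_of_le_of_ne (by linarith) fun h => hcon ⌊s - t⌋ (by linarith))
        (by linarith) (by rw [e1, hst])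
    have hloc : H145R2.TSq.LocMono c := by
      intro τ
      obtain ⟨ρ, hρ, w, hw⟩ := hall τ
      have hw0 : w ≠ 0 := by
        rintro rfl
        have := hw τ (τ + ρ / 2) (by simpa using hρ) (by
          rw [add_sub_cancel_left, abs_of_pos (by positivity)]; linarith) (by linarith)
        simp at this
      obtain ⟨φ, hφ⟩ : ∃ φ : ℂ →L[ℝ] ℝ, ∀ z, φ z = (w * z).re :=
        ⟨Complex.reCLM.comp ((ContinuousLinearMap.mul ℝ ℂ) w), fun z => rfl⟩
      refine ⟨φ, univ, Filter.univ_mem, 0, fun z _ => φ.differentiableAt, ?_, ?_, ρ, hρ, ?_⟩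
      · intro x _ y _
        rw [φ.fderiv, φ.fderiv]
        simp
      · rw [φ.fderiv]
        intro h
        have := congrArg (fun f : ℂ →L[ℝ] ℝ => f ((starRingEnd ℂ) w)) h
        simp only [hφ, ContinuousLinearMap.zero_apply] at this
        rw [mul_conj, ofReal_re] at this
        exact hw0 (normSq_eq_zero.1 this)
      · intro x hx y hy hxy
        simp only [hφ]
        rcases hxy.eq_or_lt with h | h
        · rw [h]
        · have := hw x y (by rw [abs_lt]; constructor <;> linarith [hx.1, hx.2])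
            (by rw [abs_lt]; constructor <;> linarith [hy.1, hy.2]) h
          rw [mul_sub, sub_re] at this
          linarith
    obtain ⟨ε, hε, h⟩ := H145R2.TSq.main_robust hJ hloc
    exact h c hJ (fun t => by rw [sub_self, norm_zero]; exact hε.le)
  · push Not at hall
    obtain ⟨s, hs⟩ := hall
    have hC : Csp c s := (H s).resolve_left hs
    by_contra nosq
    have nosq : NoSq (range c) := nosq
    obtain ⟨θ, g, A, hodd⟩ := exists_odd L J nosq
    obtain ⟨r1, hr1, hN⟩ := hC.nbhd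
    obtain ⟨r2, hr2, hK⟩ := hC.KL L J nosq A
    obtain ⟨r, hr, l1, l2, l3⟩ : ∃ r > 0, r ≤ r1 ∧ r ≤ r2 ∧ r ≤ 1 / 2 :=
      ⟨min (min r1 r2) (1 / 2), by positivity, (min_le_left _ _).trans (min_le_left _ _),
        (min_le_left _ _).trans (min_le_right _ _), min_le_right _ _⟩
    have hp : |s - r / 2 - s| < r := by rw [abs_lt]; constructor <;> linarith
    have hq : |s + r / 2 - s| < r := by rw [abs_lt]; constructor <;> linarith
    have Cp : Cone c (s - r / 2) := hN _ (hp.trans_le l1) (by intro h; linarith)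
    have Cq : Cone c (s + r / 2) := hN _ (hq.trans_le l1) (by intro h; linarith)
    obtain ⟨k, hk⟩ := exKL L J A Cp
    obtain ⟨l, hl⟩ := exKL L J A Cq
    have e1 := hK _ _ (hp.trans_le l2) (hq.trans_le l2) (by linarith) Cp Cq _ _ hk hl
    have e2 := arc_const L J nosq A (a := s + r / 2) (b := s - r / 2 + 1) (by linarith)
      (by linarith) Cq (Cp.per L) (fun t _ => H t) hl (hk.per A)
    have : g = 0 := by linarith
    rw [this] at hodd
    exact absurd hodd (by decide)

end Pool.Agent.Helper584_CU
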