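import Mathlib

/-! Squares between two Lipschitz graphs that form a cusp: real analysis. -/

set_option autoImplicit false
open Set

namespace Pool.Agent.Helper584_CU

/-- Lipschitz with constant `2 / 5` -/
def Lip (f : ℝ → ℝ) : Prop := ∀ x y, |f x - f y| ≤ 2 / 5 * |x - y|

theorem Lip.cont {f : ℝ → ℝ} (h : Lip f) : Continuous f := by
  refine continuous_iff_continuousAt.2 fun a => Metric.continuousAt_iff.2 fun ε hε => ?_
  refine ⟨ε, hε, fun {x} hx => ?_⟩
  rw [Real.dist_eq] at hx ⊢
  have := h x a
  linarith [abs_nonneg (x - a)]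

theorem exF {f : ℝ → ℝ} (h : Lip f) :
    ∃ F : ℝ → ℝ, ∀ x y, |F y - F x - f x * (y - x)| ≤ (y - x) ^ 2 / 5 := by
  refine ⟨fun x => ∫ t in (0:ℝ)..x, f t, fun x y => ?_⟩
  have hi : ∀ a b, IntervalIntegrable f MeasureTheory.volume a b := fun a b =>
    h.cont.intervalIntegrable a b
  have e : (∫ t in (0:ℝ)..y, f t) - (∫ t in (0:ℝ)..x, f t) - f x * (y - x) =
      ∫ t in x..y, (f t - f x) := by
    rw [intervalIntegral.integral_sub (hi x y) (by simp), intervalIntegral.integral_const,
      intervalIntegral.integral_interval_sub_left (hi 0 y) (hi 0 x), smul_eq_mul]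
    ring
  have hj : ∀ a b, IntervalIntegrable (fun t => f t - f x) MeasureTheory.volume a b := fun a b =>
    (h.cont.sub continuous_const).intervalIntegrable a b
  simp only
  rw [e]
  rcases le_total x y with hxy | hxy
  · have hk : IntervalIntegrable (fun t => 2 / 5 * (t - x)) MeasureTheory.volume x y :=
      (by fun_prop : Continuous fun t : ℝ => 2 / 5 * (t - x)).intervalIntegrable x y
    have e2 : ∫ t in x..y, 2 / 5 * (t - x) = (y - x) ^ 2 / 5 := by
      rw [intervalIntegral.integral_const_mul, intervalIntegral.integral_sub (by simp) (by simp),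
        integral_id, intervalIntegral.integral_const, smul_eq_mul]
      ring
    have hb : ∀ t ∈ Icc x y, |f t - f x| ≤ 2 / 5 * (t - x) := fun t ht => by
      have := h t x
      rwa [abs_of_nonneg (by linarith [ht.1] : (0:ℝ) ≤ t - x)] at this
    have u1 := intervalIntegral.integral_mono_on hxy (hj x y) hk
      (fun t ht => (abs_le.1 (hb t ht)).2)
    have u2 := intervalIntegral.integral_mono_on hxy hk.neg (hj x y)
      (fun t ht => (abs_le.1 (hb t ht)).1)
    rw [e2] at u1
    have e3 : ∫ t in x..y, (-fun t => 2 / 5 * (t - x)) t = -((y - x) ^ 2 / 5) := by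
      rw [← e2, ← intervalIntegral.integral_neg]; rfl
    rw [e3] at u2
    exact abs_le.2 ⟨u2, u1⟩
  · have hk : IntervalIntegrable (fun t => 2 / 5 * (x - t)) MeasureTheory.volume y x :=
      (by fun_prop : Continuous fun t : ℝ => 2 / 5 * (x - t)).intervalIntegrable y x
    have e2 : ∫ t in y..x, 2 / 5 * (x - t) = (y - x) ^ 2 / 5 := by
      rw [intervalIntegral.integral_const_mul, intervalIntegral.integral_sub (by simp) (by simp),
        integral_id, intervalIntegral.integral_const, smul_eq_mul]
      ring
    have hb : ∀ t ∈ Icc y x, |f t - f x| ≤ 2 / 5 * (x - t) := fun t ht => by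
      have := h t x
      rwa [abs_of_nonpos (by linarith [ht.2] : t - x ≤ 0), neg_sub] at this
    have u1 := intervalIntegral.integral_mono_on hxy (hj y x) hk
      (fun t ht => (abs_le.1 (hb t ht)).2)
    have u2 := intervalIntegral.integral_mono_on hxy hk.neg (hj y x)
      (fun t ht => (abs_le.1 (hb t ht)).1)
    rw [e2] at u1
    have e3 : ∫ t in y..x, (-fun t => 2 / 5 * (x - t)) t = -((y - x) ^ 2 / 5) := by
      rw [← e2, ← intervalIntegral.integral_neg]; rfl
    rw [e3] at u2
    rw [intervalIntegral.integral_symm, abs_neg]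
    exact abs_le.2 ⟨u2, u1⟩

/-- a function that does not decrease up to a quadratic error does not decrease -/
theorem mono_of_sq {P : ℝ → ℝ} {a b C : ℝ} (hab : a ≤ b)
    (h : ∀ x y, a ≤ x → x ≤ y → y ≤ b → P x - C * (y - x) ^ 2 ≤ P y) : P a ≤ P b := by
  have key : ∀ n : ℕ, 0 < n → P a - C * (b - a) ^ 2 / n ≤ P b := by
    intro n hn
    have hn' : (0:ℝ) < n := by exact_mod_cast hn
    have step : ∀ k : ℕ, k ≤ n → P a - k * (C * ((b - a) / n) ^ 2) ≤ P (a + k * ((b - a) / n)) := by
      intro k
      induction k with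
      | zero => intro _; simp
      | succ k ih =>
        intro hk
        have hk' : ((k:ℝ) + 1) ≤ n := by exact_mod_cast hk
        have h0 : 0 ≤ (b - a) / n := div_nonneg (by linarith) hn'.le
        have h1 : ((k:ℝ) + 1) * ((b - a) / n) ≤ b - a := by
          calc ((k:ℝ) + 1) * ((b - a) / n) ≤ n * ((b - a) / n) :=
                mul_le_mul_of_nonneg_right hk' h0
            _ = b - a := by field_simp
        have := h (a + k * ((b - a) / n)) (a + (k + 1) * ((b - a) / n))
          (by have : 0 ≤ (k:ℝ) * ((b - a) / n) := by positivity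
              linarith) (by nlinarith) (by linarith)
        have e : a + (k + 1) * ((b - a) / n) - (a + k * ((b - a) / n)) = (b - a) / n := by ring
        rw [e] at this
        have ih' := ih (by omega)
        push_cast
        linarith
    have := step n le_rfl
    have e1 : (n:ℝ) * ((b - a) / n) = b - a := by field_simp
    have e2 : (n:ℝ) * (C * ((b - a) / n) ^ 2) = C * (b - a) ^ 2 / n := by field_simp
    rw [e1, e2] at this
    have e3 : a + (b - a) = b := by ring
    rwa [e3] at this
  by_contra hcon
  push Not at hcon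
  obtain ⟨n, hn⟩ := exists_nat_gt (C * (b - a) ^ 2 / (P a - P b))
  have hpos : 0 < P a - P b := by linarith
  have hn0 : 0 < n + 1 := by omega
  have := key (n + 1) hn0
  have hn1 : (0:ℝ) < ((n + 1 : ℕ) : ℝ) := by exact_mod_cast hn0
  rw [div_lt_iff₀ hpos] at hn
  have h2 : C * (b - a) ^ 2 / ((n + 1 : ℕ) : ℝ) < P a - P b := by
    rw [div_lt_iff₀ hn1]
    push_cast
    nlinarith
  linarith

end Pool.Agent.Helper584_CU
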